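import Mathlib

set_option autoImplicit false
set_option maxHeartbeats 4000000

namespace W31LD

/-- One plus the highest bit in which `x` and `y` differ (`0` when they are equal). -/
def dst (x y : ℕ) : ℕ := Nat.size (x ^^^ y)

/-- The diameter of `A`. -/
def top (A : Finset ℕ) : ℕ := (A ×ˢ A).sup (fun p => dst p.1 p.2)

/-- The lower half of `A`. -/
def lo (A : Finset ℕ) : Finset ℕ := A.filter (fun x => ∀ y ∈ A, y ≤ x → dst y x < top A)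

/-- The upper half of `A`. -/
def hi (A : Finset ℕ) : Finset ℕ := A \ lo A

theorem lo_subset (A : Finset ℕ) : lo A ⊆ A := Finset.filter_subset _ _
theorem hi_subset (A : Finset ℕ) : hi A ⊆ A := Finset.sdiff_subset

theorem card_lo_add_card_hi (A : Finset ℕ) : (lo A).card + (hi A).card = A.card := by
  rw [hi, Finset.card_sdiff_of_subset (lo_subset A)]
  have := Finset.card_le_card (lo_subset A)
  omega

/-- The code of `A`, relative to a code `nx` of sets of heights and a set `H` of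
heights collected so far. -/
def cod (nx : Finset ℕ → ℕ) (H A : Finset ℕ) : ℕ :=
  if h : (lo A).Nonempty ∧ (hi A).Nonempty then
    if (lo A).card = 1 then cod nx (insert (top A - 1) H) (hi A)
    else if (hi A).card = 1 then cod nx (insert (top A - 1) H) (lo A)
    else Nat.pair 1 (Nat.pair (nx H)
      (Nat.pair (Nat.pair (lo A).card (cod nx ∅ (lo A)))
        (Nat.pair (hi A).card (cod nx ∅ (hi A)))))
  else Nat.pair 0 (Nat.pair A.card (nx H))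
termination_by A.card
decreasing_by
  all_goals
    have h1 := card_lo_add_card_hi A
    have h2 := Finset.card_pos.mpr h.1
    have h3 := Finset.card_pos.mpr h.2
    omega

/-- The level `i` code. -/
def clev : ℕ → Finset ℕ → ℕ
  | 0 => fun A => A.card
  | i + 1 => fun A => Nat.pair A.card (cod (clev i) ∅ A)

/-- Anticoncentration of the code `nx` on subsets of `{0, …, m - 1}`. -/
def AC (nx : Finset ℕ → ℕ) (m : ℕ) (g : ℕ → ℝ) : Prop :=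
  ∀ D E : Finset ℕ, Disjoint D E → D ⊆ Finset.range m → E ⊆ Finset.range m → ∀ τ : ℕ,
    ((D.powerset.filter (fun J => nx (E ∪ J) = τ)).card : ℝ) ≤ g D.card * 2 ^ D.card

/-- The anticoncentration function at level `i`. -/
noncomputable def mu (B i : ℕ) : ℝ := Real.log B / (240 * ((i : ℝ) + B))

noncomputable def gg (B i n : ℕ) : ℝ :=
  if n = 0 then 1 else 1 / 2 * Real.exp (-(mu B i * ((n : ℝ) - 2)))

noncomputable def th (B i r : ℕ) : ℝ := 8 * mu B i * (3 / 4) ^ r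

/-- The numeric facts used in the level step. -/
structure Num (g' g θ : ℕ → ℝ) (N0 : ℕ) : Prop where
  gz : g' 0 = 1
  g'nn : ∀ n, 0 ≤ g' n
  gnn : ∀ n, 0 ≤ g n
  gone : g 1 ≤ 3 / 4
  ghalf : ∀ n, 2 ≤ n → g n ≤ 1 / 2
  thnn : ∀ r, 0 ≤ θ r
  thanti : ∀ r, θ (r + 1) ≤ θ r
  small : ∀ n, n ≤ N0 → ∀ t : ℕ, (Nat.choose n t : ℝ) ≤ g n * 2 ^ n
  slack : ∀ s r, r ≤ 20 → N0 < s + r → g' s ≤ (1 - θ r) * g (s + r)
  comb : ∀ s r, 20 ≤ r → N0 < s + (r + 1) →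
    2 * (g' s * 2 ^ s) - g' (s + 1) * 2 ^ (s + 1) ≤ (θ r - θ (r + 1)) * (g (s + (r + 1)) * 2 ^ (s + (r + 1)))
  branch : ∀ s x y, 1 ≤ s → 11 ≤ y → x ≤ y → 21 ≤ x + y → N0 < s + (x + y) → ∀ a b : ℝ, 0 ≤ a → 0 ≤ b →
    a + b ≤ 2 ^ x → b ≤ g x * 2 ^ x → a ≤ x + 1 → (x = 0 → a = 0) → a ≤ 3 / 4 * 2 ^ x →
    a * (g (s + y) * 2 ^ (s + y) + g' s * 2 ^ s) + b * (g' s * 2 ^ s * (g y * 2 ^ y))
      + 2 ^ x * (y + 3) * (g' s * 2 ^ s)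
      ≤ (1 - θ (x + y)) * (g (s + (x + y)) * 2 ^ (s + (x + y)))
  branch0 : ∀ x y, 1 ≤ x → 11 ≤ y → x ≤ y → 21 ≤ x + y → N0 < x + y → ∀ M : ℝ, 0 ≤ M →
    M ≤ 3 / 4 * 2 ^ x → (M ≤ x + 1 ∨ M ≤ 1 + g x * 2 ^ x) →
    M * (g y * 2 ^ y) + 2 ^ x * (y + 3) ≤ (1 - θ (x + y)) * (g (x + y) * 2 ^ (x + y))
  tiny : ∀ r, N0 < r → 20 < r → (r : ℝ) + 1 ≤ (1 - θ r) * (g r * 2 ^ r)

/-! Statements of the separate tasks. -/

def T_Bits : Prop :=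
  (∀ x y, dst x y = dst y x) ∧ (∀ x, dst x x = 0) ∧ (∀ x y, x ≠ y → 0 < dst x y) ∧
  (∀ x y z, dst x z ≤ max (dst x y) (dst y z)) ∧
  (∀ x y z, x < y → y < z → dst x y ≠ dst y z) ∧
  (∀ m x y, x < 2 ^ m → y < 2 ^ m → dst x y ≤ m)

def T_Split : Prop :=
  (∀ A : Finset ℕ, 2 ≤ A.card → (lo A).Nonempty ∧ (hi A).Nonempty) ∧
  (∀ A : Finset ℕ, A.card ≤ 1 → ¬ ((lo A).Nonempty ∧ (hi A).Nonempty)) ∧
  (∀ A B : Finset ℕ, B ⊆ A → top B ≤ top A) ∧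
  (∀ A : Finset ℕ, ∀ B, B ⊆ lo A → 2 ≤ A.card → top B < top A) ∧
  (∀ A : Finset ℕ, ∀ B, B ⊆ hi A → 2 ≤ A.card → top B < top A) ∧
  (∀ A B : Finset ℕ, B ⊆ A → (B ∩ lo A).Nonempty → (B ∩ hi A).Nonempty →
    top B = top A ∧ lo B = B ∩ lo A ∧ hi B = B ∩ hi A) ∧
  (∀ m, ∀ A : Finset ℕ, A ⊆ Finset.range (2 ^ m) → top A ≤ m)

def T_Num : Prop :=
  ∃ B0 : ℕ, ∀ B, B0 ≤ B → ∀ i, i < B → Num (gg B i) (gg B (i + 1)) (th B i) (60 * (i + B))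

def T_Num_easy : Prop := ∃ B0 : ℕ, ∀ B, B0 ≤ B → ∀ i, i < B →
  gg B i 0 = 1 ∧ (∀ n, 0 ≤ gg B i n) ∧ gg B (i + 1) 1 ≤ 3 / 4 ∧
    (∀ n, 2 ≤ n → gg B (i + 1) n ≤ 1 / 2) ∧ (∀ r, 0 ≤ th B i r) ∧ (∀ r, th B i (r + 1) ≤ th B i r) ∧
    (∀ r, 60 * (i + B) < r → 20 < r → (r : ℝ) + 1 ≤ (1 - th B i r) * (gg B (i + 1) r * 2 ^ r))

def T_Num_small : Prop := ∃ B0 : ℕ, ∀ B, B0 ≤ B → ∀ i, i < B →
  ∀ n, n ≤ 60 * (i + B) → ∀ t : ℕ, (Nat.choose n t : ℝ) ≤ gg B (i + 1) n * 2 ^ n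

def T_Num_slack : Prop := ∃ B0 : ℕ, ∀ B, B0 ≤ B → ∀ i, i < B →
  ∀ s r, r ≤ 20 → 60 * (i + B) < s + r → gg B i s ≤ (1 - th B i r) * gg B (i + 1) (s + r)

def T_Num_comb : Prop := ∃ B0 : ℕ, ∀ B, B0 ≤ B → ∀ i, i < B →
  ∀ s r, 20 ≤ r → 60 * (i + B) < s + (r + 1) →
    2 * (gg B i s * 2 ^ s) - gg B i (s + 1) * 2 ^ (s + 1) ≤
      (th B i r - th B i (r + 1)) * (gg B (i + 1) (s + (r + 1)) * 2 ^ (s + (r + 1)))

def T_Num_branch : Prop := ∃ B0 : ℕ, ∀ B, B0 ≤ B → ∀ i, i < B →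
  ∀ s x y, 1 ≤ s → 11 ≤ y → x ≤ y → 21 ≤ x + y → 60 * (i + B) < s + (x + y) → ∀ a b : ℝ, 0 ≤ a → 0 ≤ b →
    a + b ≤ 2 ^ x → b ≤ gg B (i + 1) x * 2 ^ x → a ≤ x + 1 → (x = 0 → a = 0) → a ≤ 3 / 4 * 2 ^ x →
    a * (gg B (i + 1) (s + y) * 2 ^ (s + y) + gg B i s * 2 ^ s)
      + b * (gg B i s * 2 ^ s * (gg B (i + 1) y * 2 ^ y))
      + 2 ^ x * (y + 3) * (gg B i s * 2 ^ s)
      ≤ (1 - th B i (x + y)) * (gg B (i + 1) (s + (x + y)) * 2 ^ (s + (x + y)))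

def T_Num_branch0 : Prop := ∃ B0 : ℕ, ∀ B, B0 ≤ B → ∀ i, i < B →
  ∀ x y, 1 ≤ x → 11 ≤ y → x ≤ y → 21 ≤ x + y → 60 * (i + B) < x + y → ∀ M : ℝ, 0 ≤ M →
    M ≤ 3 / 4 * 2 ^ x → (M ≤ x + 1 ∨ M ≤ 1 + gg B (i + 1) x * 2 ^ x) →
    M * (gg B (i + 1) y * 2 ^ y) + 2 ^ x * (y + 3) ≤
      (1 - th B i (x + y)) * (gg B (i + 1) (x + y) * 2 ^ (x + y))

theorem num_of_parts (h1 : T_Num_easy) (h2 : T_Num_small) (h3 : T_Num_slack) (h4 : T_Num_comb)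
    (h5 : T_Num_branch) (h6 : T_Num_branch0) : T_Num := by
  obtain ⟨b1, h1⟩ := h1
  obtain ⟨b2, h2⟩ := h2
  obtain ⟨b3, h3⟩ := h3
  obtain ⟨b4, h4⟩ := h4
  obtain ⟨b5, h5⟩ := h5
  obtain ⟨b6, h6⟩ := h6
  refine ⟨b1 + b2 + b3 + b4 + b5 + b6, fun B hB i hi => ?_⟩
  obtain ⟨e1, e2, e3, e4, e5, e6, e7⟩ := h1 B (by omega) i hi
  refine ⟨e1, e2, ?_, e3, e4, e5, e6, h2 B (by omega) i hi, h3 B (by omega) i hi,
    h4 B (by omega) i hi, h5 B (by omega) i hi, h6 B (by omega) i hi, e7⟩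
  intro n
  unfold gg
  split_ifs
  · norm_num
  · positivity

def T_Pat : Prop :=
  ∀ n h : ℕ, ∃ Φ : Finset (Finset (Fin n) → ℕ), Φ.card ≤ ((n + 1) ^ (n ^ 2 + 1)) ^ h ∧
    ∀ (S : Finset ℕ) (hS : S.card = n),
      (fun I : Finset (Fin n) => clev h (I.map (S.orderEmbOfFin hS).toEmbedding)) ∈ Φ

def T_Prob : Prop :=
  ∀ (α : Type) (J : Finset α) (Φ : Finset (α → ℕ)) (p δ : ℝ), 0 < p → 0 < δ →
    (∀ φ ∈ Φ, ∀ τ : ℕ, (({j ∈ J | φ j = τ} : Finset α).card : ℝ) ≤ p * J.card) →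
    2 * (Φ.card : ℝ) < Real.exp (δ ^ 2 / (2 * p)) →
    ∃ f : ℕ → Bool, ∀ φ ∈ Φ, |∑ j ∈ J, (if f (φ j) then (1 : ℝ) else -1)| ≤ δ * J.card

/-- The level step. -/
def T_Step : Prop :=
  ∀ (nx : Finset ℕ → ℕ) (m : ℕ) (g' g θ : ℕ → ℝ) (N0 : ℕ), Num g' g θ N0 →
    (∀ L L' : Finset ℕ, nx L = nx L' → L.card = L'.card) → AC nx m g' →
    AC (fun A => Nat.pair A.card (cod nx ∅ A)) (2 ^ m) g

/-- What the level steps give. -/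
def T_AC : Prop :=
  ∃ B0 : ℕ, ∀ B, B0 ≤ B → AC (clev B) ((fun n : ℕ => 2 ^ n)^[B] 1) (gg B B)

/-- The frozen statement. -/
def T_Main : Prop :=
    ∃ ε : ℝ, 0 < ε ∧ ∀ δ : ℝ, 0 < δ → ∃ k₀ : ℕ, ∀ k : ℕ, k₀ ≤ k →
      ∀ N : ℕ, N ≤ (fun n : ℕ => 2 ^ n)^[⌊ε * (k : ℝ)⌋₊] 1 →
        ∃ γ : Finset (Fin N) → Bool, ∀ S : Finset (Fin N), S.card = 2 * k →
          |∑ T ∈ S.powersetCard k, (if γ T then (1 : ℝ) else -1)|
            ≤ δ * ((Nat.choose (2 * k) k : ℕ) : ℝ)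

def T_Final : Prop := T_AC → T_Pat → T_Prob → T_Main

def T_Glue : Prop := T_Step → T_Num → T_AC

end W31LD
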